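import Pool.Agent.H957R2.SE.Main

/-!
# MP_3285df_ag, Q1: `D = 111 L - 36 E₁ - 35 (E₂ + ⋯ + E₁₀)` is not semi-effective

Let `p_i = (a_i : b_i : 1)`, `i = 0, …, 9`, be ten generic points of `ℙ²` over a field `K` of
arbitrary characteristic, i.e. the twenty coordinates are algebraically independent over the prime
field of `K`.  For every `n > 0` the only form of degree `111 n` that vanishes to order `≥ 36 n` at
`p_0` and to order `≥ 35 n` at the other nine points is `0`; that is, `h⁰(X, nD) = 0` for all `n > 0`.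
-/

open MvPolynomial

namespace Pool.Agent.Results.MP_3285df_ag.NotSemiEffective

/-- The homogeneous ideal of the point `(a : b : 1)` of the projective plane in the coordinate ring
`K[X₀, X₁, X₂]`; a form vanishes to order `≥ m` at the point iff it lies in the `m`-th power. -/
noncomputable def pointIdeal {K : Type*} [Field K] (a b : K) : Ideal (MvPolynomial (Fin 3) K) :=
  Ideal.span {X 0 - C a * X 2, X 1 - C b * X 2}

theorem result {K : Type*} [Field K] (a b : Fin 10 → K)
    (hab : AlgebraicIndependent (⊥ : Subfield K) (Sum.elim a b)) (n : ℕ) (hn : 0 < n)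
    (F : MvPolynomial (Fin 3) K) (hF : F.IsHomogeneous (111 * n))
    (h₀ : F ∈ pointIdeal (a 0) (b 0) ^ (36 * n))
    (h : ∀ i, i ≠ 0 → F ∈ pointIdeal (a i) (b i) ^ (35 * n)) : F = 0 := by
  have hv : ∀ i : Fin 10, Pool.Agent.H957R2.SE.Van (111 * n) ((if i = 0 then 36 else 35) * n)
      (fun p : ℕ × ℕ => F.coeff (Finsupp.single 0 p.1 + Finsupp.single 1 p.2
      + Finsupp.single 2 (111 * n - p.1 - p.2))) (a i) (b i) 1 := by
    intro i
    apply Pool.Agent.H957R2.SE.Van.of_ptIdeal _ _ _ _ F hF
    by_cases hi : i = 0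
    · subst hi; exact h₀
    · rw [if_neg hi]; exact h i hi
  have htr : Transcendental (⊥ : Subfield K) (a 0) := hab.transcendental (Sum.inl 0)
  have ha0 : a 0 ≠ 0 := by
    intro h0
    apply htr
    rw [h0]
    exact isAlgebraic_zero
  obtain ⟨P, hP, hP2⟩ := Pool.Agent.H957R2.SE.special (Units.mk0 (a 0) ha0) (by
    intro i hi h1
    apply htr
    have h2 : (Units.mk0 (a 0) ha0) ^ i.natAbs = 1 := by
      rcases Int.natAbs_eq i with h3 | h3
      · rw [h3] at h1; rwa [zpow_natCast] at h1
      · rw [h3, zpow_neg, inv_eq_one] at h1; rwa [zpow_natCast] at h1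
    have h4 : a 0 ^ i.natAbs = 1 := by
      have := congrArg Units.val h2
      simpa using this
    refine ⟨Polynomial.X ^ i.natAbs - 1, ?_, ?_⟩
    · have : (Polynomial.X ^ i.natAbs - 1 : Polynomial (⊥ : Subfield K))
          = Polynomial.X ^ i.natAbs - Polynomial.C 1 := by rw [map_one]
      rw [this]
      exact Polynomial.X_pow_sub_C_ne_zero (Int.natAbs_pos.mpr hi) 1
    · simp [h4])
  have key := Pool.Agent.H957R2.SE.descent (F := (⊥ : Subfield K))
    (R := Polynomial (PowerSeries K)) a b hab P hP (111 * n)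
    (fun i => (if i = 0 then 36 else 35) * n) (hP2 n hn) _ hv
  ext d
  rw [coeff_zero]
  by_contra hd
  have h1 : d.degree = 111 * n := by
    rw [Finsupp.degree_eq_weight_one]; exact hF hd
  rw [Finsupp.degree_eq_sum, Fin.sum_univ_three] at h1
  have h2 := key (d 0, d 1) (by rw [Pool.Agent.H957R2.SE.mem_tri]; simp only; omega)
  apply hd
  rw [← h2]
  congr 1
  ext i
  have h3 : 111 * n - d 0 - d 1 = d 2 := by omega
  fin_cases i
  · simp
  · simp
  · simp [h3]

end Pool.Agent.Results.MP_3285df_ag.NotSemiEffective
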